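import Pool.Agent.Helper99.DP.Fin
import Pool.Agent.H739K.All1
import Pool.Agent.Results.MP_376faf_co.PolygonsLogTwo

/-!
Self-avoiding polygons on the square lattice: the lower tail of the area and the mean area are
controlled by the radius of convergence of the generating function of the deflated polygons, in
which a polygon `P` has the weight `q ^ area(P)` with `q < 1`.
-/

set_option autoImplicit false

namespace Pool.Agent.Results.MP_2250b1_co.DeflatedPolygons

open Filter Topology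

/-- a closed nearest-neighbour loop on `ℤ²` with `m` steps, rooted at the origin and oriented,
that visits no vertex twice -/
def IsLoop (m : ℕ) (f : ZMod m → ℤ × ℤ) : Prop :=
  f 0 = 0 ∧ Function.Injective f ∧
    ∀ i : ZMod m, |(f (i + 1)).1 - (f i).1| + |(f (i + 1)).2 - (f i).2| = 1

/-- the edge from `f k` to `f (k+1)` is horizontal, joins the columns `x = a` and `x = a + 1`, and
has height larger than `b`: it lies above the unit cell `[a, a+1] × [b, b+1]` -/
def Above (m : ℕ) (f : ZMod m → ℤ × ℤ) (a b : ℤ) (k : ZMod m) : Prop :=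
  (((f k).1 = a ∧ (f (k + 1)).1 = a + 1) ∨ ((f k).1 = a + 1 ∧ (f (k + 1)).1 = a)) ∧ b < (f k).2

/-- the unit cell `[a, a+1] × [b, b+1]` is enclosed by the loop: the vertical ray from the cell
upwards crosses an odd number of edges -/
def Encl (m : ℕ) (f : ZMod m → ℤ × ℤ) (c : ℤ × ℤ) : Prop :=
  Odd (Nat.card {k : ZMod m // Above m f c.1 c.2 k})

/-- the area: the number of unit cells enclosed by the loop -/
noncomputable def area (m : ℕ) (f : ZMod m → ℤ × ℤ) : ℕ := Nat.card {c : ℤ × ℤ // Encl m f c}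

/-- the mean area `A_n` of the self-avoiding polygons of perimeter `2 n`: the average of the
area over the rooted oriented polygons. -/
noncomputable def A (n : ℕ) : ℝ :=
  (∑ᶠ f ∈ {f : ZMod (2 * n) → ℤ × ℤ | IsLoop (2 * n) f}, (area (2 * n) f : ℝ)) /
    ({f : ZMod (2 * n) → ℤ × ℤ | IsLoop (2 * n) f}.ncard : ℝ)

/-- the proportion of the self-avoiding polygons of perimeter `2 n` whose area is at most `a` -/
noncomputable def small (n : ℕ) (a : ℝ) : ℝ :=
  ({f : ZMod (2 * n) → ℤ × ℤ | IsLoop (2 * n) f ∧ (area (2 * n) f : ℝ) ≤ a}.ncard : ℝ) /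
    ({f : ZMod (2 * n) → ℤ × ℤ | IsLoop (2 * n) f}.ncard : ℝ)

/-- the sum of `q ^ area(P)` over the self-avoiding polygons `P` of perimeter `m` (unrooted,
unoriented, up to translation): the sum over the rooted oriented polygons, divided by `2 m`, the
number of the rooted oriented polygons which belong to the same polygon -/
noncomputable def Z (q : ℝ) (m : ℕ) : ℝ :=
  (∑ᶠ f ∈ {f : ZMod m → ℤ × ℤ | IsLoop m f}, q ^ area m f) / (2 * (m : ℝ))

/-- the generating function `∑_P q ^ area(P) r ^ |P|` of all polygons converges -/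
def Conv (q r : ℝ) : Prop := Summable fun j : ℕ => Z q (j + 4) * r ^ (j + 4)

/-- the number of `n`-step self-avoiding walks on `ℤ²` started at the origin -/
noncomputable def c (n : ℕ) : ℕ :=
  Nat.card {f : Fin (n + 1) → ℤ × ℤ // f 0 = 0 ∧ Function.Injective f ∧
    ∀ i : Fin n, |(f i.succ).1 - (f i.castSucc).1| + |(f i.succ).2 - (f i.castSucc).2| = 1}

theorem cond {φ C K : ℝ} (hφ : 0 < φ) (hC : 0 < C) {μ : ℝ} (hμ : 0 < μ)
    (h : ∀ q r : ℝ, 0 < q → q < 1 → 0 < r → Conv q r → ∀ n : ℕ, 2 ≤ n →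
      2 * n * Real.log (μ * r) ≤ (A n + 1) * Real.log (1 / q) + K * Real.log n ^ 2)
    (hr : ∀ᶠ q in 𝓝[<] (1 : ℝ), Conv q (Real.exp (C * (1 - q) ^ φ) / μ)) :
    ∃ c : ℝ, 0 < c ∧ ∀ᶠ n : ℕ in atTop,
      c * (n : ℝ) ^ (1 / φ) / Real.log n ^ (2 / φ - 2) ≤ A n := by
  obtain ⟨D, hD⟩ : ∃ D, D = (|K| + 1) / (2 * C) := ⟨_, rfl⟩
  have hD0 : 0 < D := by rw [hD]; positivity
  obtain ⟨e, he⟩ : ∃ e : ℕ → ℝ, e = fun n : ℕ => (D * (Real.log (n : ℝ) ^ 2 / (n : ℝ))) ^ (1 / φ) := ⟨_, rfl⟩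
  have hφ' : 0 < 1 / φ := by positivity
  have t1 : Tendsto (fun n : ℕ => Real.log n ^ 2 / (n : ℝ)) atTop (𝓝 0) := by
    have h1 := (Real.isLittleO_pow_log_id_atTop (n := 2)).tendsto_div_nhds_zero
    exact h1.comp tendsto_natCast_atTop_atTop
  have t2 : Tendsto e atTop (𝓝 0) := by
    rw [he]
    have h1 := (t1.const_mul D).rpow_const (p := 1 / φ) (Or.inr hφ'.le)
    rwa [mul_zero, Real.zero_rpow hφ'.ne'] at h1
  have hpos : ∀ n : ℕ, 2 ≤ n → 0 < e n := by
    intro n hn
    have hn1 : (1 : ℝ) < n := by exact_mod_cast hn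
    have h1 := Real.log_pos hn1
    rw [he]
    simp only
    positivity
  have t3 : Tendsto (fun n => 1 - e n) atTop (𝓝[<] (1 : ℝ)) := by
    refine tendsto_nhdsWithin_iff.2 ⟨?_, ?_⟩
    · have := t2.const_sub 1
      rwa [sub_zero] at this
    · filter_upwards [eventually_ge_atTop 2] with n hn
      have := hpos n hn
      rw [Set.mem_Iio]
      linarith
  refine ⟨1 / (4 * D ^ (1 / φ)), by positivity, ?_⟩
  filter_upwards [t3.eventually hr, t2.eventually_lt_const (show (0 : ℝ) < 1 / 2 by norm_num),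
    eventually_ge_atTop 2] with n h1 h2 hn
  have hn1 : (1 : ℝ) < n := by exact_mod_cast hn
  have hn0 : (0 : ℝ) < n := by linarith
  have hL := Real.log_pos hn1
  have h3 := hpos n hn
  have h4 := h (1 - e n) _ (by linarith) (by linarith) (by positivity) h1 n hn
  have e1 : μ * (Real.exp (C * (1 - (1 - e n)) ^ φ) / μ) = Real.exp (C * (e n) ^ φ) := by
    rw [sub_sub_cancel]
    field_simp
  have e2 : (e n) ^ φ = D * (Real.log n ^ 2 / n) := by
    rw [he]
    simp only
    rw [← Real.rpow_mul (by positivity), one_div_mul_cancel hφ.ne', Real.rpow_one]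
  rw [e1, Real.log_exp, e2] at h4
  have e3 : 2 * (n : ℝ) * (C * (D * (Real.log n ^ 2 / n))) = (|K| + 1) * Real.log n ^ 2 := by
    rw [hD]
    field_simp
  rw [e3] at h4
  have h5 : Real.log (1 / (1 - e n)) ≤ 2 * e n := by
    have h6 : 0 < 1 - e n := by linarith
    have h7 := Real.log_le_sub_one_of_pos (show 0 < 1 / (1 - e n) by positivity)
    refine h7.trans ?_
    rw [div_sub_one h6.ne', div_le_iff₀ h6]
    nlinarith
  have hA : (n : ℝ) / 2 ≤ A n := Pool.Agent.H739K.f2a n hn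
  have hn2 : (2 : ℝ) ≤ n := by exact_mod_cast hn
  have hA1 : 1 ≤ A n := by linarith
  have h6 : Real.log n ^ 2 ≤ 4 * A n * e n := by
    have h7 : K * Real.log n ^ 2 ≤ |K| * Real.log n ^ 2 :=
      mul_le_mul_of_nonneg_right (le_abs_self K) (by positivity)
    have h8 : (A n + 1) * Real.log (1 / (1 - e n)) ≤ (2 * A n) * (2 * e n) :=
      mul_le_mul (by linarith) h5 (Real.log_nonneg (by
        rw [le_div_iff₀ (by linarith)]; linarith)) (by linarith)
    nlinarith
  have e4 : e n = D ^ (1 / φ) * Real.log n ^ (2 / φ) / (n : ℝ) ^ (1 / φ) := by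
    rw [he]
    simp only
    rw [Real.mul_rpow hD0.le (by positivity), Real.div_rpow (by positivity) hn0.le,
      ← Real.rpow_natCast (Real.log n) 2, ← Real.rpow_mul hL.le, mul_div_assoc]
    congr 3
    push_cast
    ring
  have hnp : 0 < (n : ℝ) ^ (1 / φ) := Real.rpow_pos_of_pos hn0 _
  have hLp : 0 < Real.log n ^ (2 / φ - 2) := Real.rpow_pos_of_pos hL _
  have hDp : 0 < D ^ (1 / φ) := Real.rpow_pos_of_pos hD0 _
  have e5 : Real.log n ^ (2 / φ) = Real.log n ^ (2 / φ - 2) * Real.log n ^ 2 := by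
    rw [← Real.rpow_natCast (Real.log n) 2, ← Real.rpow_add hL]
    congr 1
    push_cast
    ring
  rw [e4, e5] at h6
  have hL2 : 0 < Real.log n ^ 2 := by positivity
  rw [div_le_iff₀ hLp]
  have h7 : (n : ℝ) ^ (1 / φ) ≤ A n * Real.log n ^ (2 / φ - 2) * (4 * D ^ (1 / φ)) := by
    rw [mul_div_assoc', le_div_iff₀ hnp] at h6
    have h8 : Real.log n ^ 2 * (n : ℝ) ^ (1 / φ) ≤
        Real.log n ^ 2 * (A n * Real.log n ^ (2 / φ - 2) * (4 * D ^ (1 / φ))) := by
      refine h6.trans (le_of_eq ?_)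
      ring
    exact le_of_mul_le_mul_left h8 hL2
  calc 1 / (4 * D ^ (1 / φ)) * (n : ℝ) ^ (1 / φ)
      ≤ 1 / (4 * D ^ (1 / φ)) * (A n * Real.log n ^ (2 / φ - 2) * (4 * D ^ (1 / φ))) :=
        mul_le_mul_of_nonneg_left h7 (by positivity)
    _ = _ := by field_simp

/-- **Theorem.** Let `μ = lim c_n^(1/n)`. There is `K` such that the following holds for all
`0 < q < 1` and `r > 0` for which the generating function `∑_P q ^ area(P) r ^ |P|` of the
self-avoiding polygons converges, and for all `n ≥ 2`: for every `a` the proportion of the polygons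
of perimeter `2 n` with area at most `a` is at most
`exp (K (log n)² + (a + 1) log (1/q) - 2 n log (μ r))`, and the mean area `A_n` satisfies
`(A_n + 1) log (1/q) ≥ 2 n log (μ r) - K (log n)²`. Consequently, if for some `φ, C > 0` and all
`q < 1` near `1` the generating function converges for `r = exp (C (1 - q)^φ) / μ`, then
`A_n ≥ c n^(1/φ) / (log n)^(2/φ - 2)` for some `c > 0` and all large `n`. -/
theorem result : ∃ μ : ℝ, 0 < μ ∧
    Tendsto (fun n : ℕ => (c n : ℝ) ^ ((1 : ℝ) / (n : ℝ))) atTop (𝓝 μ) ∧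
    (∃ K : ℝ, ∀ q r : ℝ, 0 < q → q < 1 → 0 < r → Conv q r → ∀ n : ℕ, 2 ≤ n →
      (∀ a : ℝ, small n a ≤ Real.exp (K * Real.log n ^ 2 + (a + 1) * Real.log (1 / q) -
        2 * n * Real.log (μ * r))) ∧
      2 * n * Real.log (μ * r) ≤ (A n + 1) * Real.log (1 / q) + K * Real.log n ^ 2) ∧
    ∀ φ C : ℝ, 0 < φ → 0 < C →
      (∀ᶠ q in 𝓝[<] (1 : ℝ), Conv q (Real.exp (C * (1 - q) ^ φ) / μ)) →
      ∃ c : ℝ, 0 < c ∧ ∀ᶠ n : ℕ in atTop,
        c * (n : ℝ) ^ (1 / φ) / Real.log n ^ (2 / φ - 2) ≤ A n := by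
  obtain ⟨μ, hμ, ht, K, hK⟩ := MP_376faf_co.PolygonsLogTwo.result
  have main : ∀ q r : ℝ, 0 < q → q < 1 → 0 < r → Conv q r → ∀ n : ℕ, 2 ≤ n →
      (∀ a : ℝ, small n a ≤ Real.exp (K * Real.log n ^ 2 + (a + 1) * Real.log (1 / q) -
        2 * n * Real.log (μ * r))) ∧
      2 * n * Real.log (μ * r) ≤ (A n + 1) * Real.log (1 / q) + K * Real.log n ^ 2 := by
    intro q r hq hq1 hr hS n hn
    have hP : 0 < μ ^ (2 * n) * Real.exp (-(K * Real.log n ^ 2)) := by positivity
    have hc : μ ^ (2 * n) * Real.exp (-(K * Real.log n ^ 2)) ≤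
        (({f : ZMod (2 * n) → ℤ × ℤ | Pool.Agent.Helper99.AG.Lp (2 * n) f}.ncard : ℕ) : ℝ) /
          (2 * ((2 * n : ℕ) : ℝ)) := by
      refine (hK n hn).1.trans (le_of_eq ?_)
      unfold MP_376faf_co.PolygonsLogTwo.p
      have e : (4 * (n : ℝ)) = 2 * ((2 * n : ℕ) : ℝ) := by push_cast; ring
      rw [e]
      rfl
    obtain ⟨h1, h2⟩ := Pool.Agent.Helper99.DP.both hq hq1 hr hS (m := 2 * n) (by omega) hP hc
    have e1 : Real.log (μ ^ (2 * n) * Real.exp (-(K * Real.log n ^ 2))) =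
        2 * n * Real.log μ - K * Real.log n ^ 2 := by
      rw [Real.log_mul (by positivity) (Real.exp_pos _).ne', Real.log_pow, Real.log_exp]
      push_cast
      ring
    have e2 : Real.log (μ * r) = Real.log μ + Real.log r := Real.log_mul hμ.ne' hr.ne'
    rw [e1] at h1 h2
    refine ⟨fun a => ?_, ?_⟩
    · refine (h1 a).trans (le_of_eq ?_)
      rw [e2]
      congr 1
      push_cast
      ring
    · have h3 : 2 * (n : ℝ) * Real.log μ - K * Real.log n ^ 2 + ((2 * n : ℕ) : ℝ) * Real.log r ≤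
          (A n + 1) * Real.log (1 / q) := h2
      push_cast at h3
      rw [e2]
      linarith
  exact ⟨μ, hμ, ht, ⟨K, main⟩, fun φ C hφ hC hr =>
    cond hφ hC hμ (fun q r h1 h2 h3 h4 n hn => (main q r h1 h2 h3 h4 n hn).2) hr⟩

end Pool.Agent.Results.MP_2250b1_co.DeflatedPolygons
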