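import Pool.Agent.N226.SX.Form
import Pool.Agent.Results.MP_2250b1_co.AllOrders

/-!
# The moments of the area of self-avoiding polygons: expansions from sparse perimeters
-/

set_option autoImplicit false

namespace Pool.Agent.Results.MP_2250b1_co.ExpansionsFromSparsePerimeters

open Finset Filter Topology Pool.Agent.Results.MP_2250b1_co.AllOrders

/-- The expansion `β log n + ∑ a_i n ^ (-θ_i)`. -/
noncomputable def expansion (q : ℕ) (β : ℝ) (a θ : Fin q → ℝ) (n : ℕ) : ℝ :=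
  β * Real.log n + ∑ i, a i * (n : ℝ) ^ (-(θ i))

/-- Let `A k n` be the mean of the `k`-th power of the area over the self-avoiding polygons of
perimeter `2 n` on `ℤ²` (`k = 1`: the mean area `A_n`). Let `u_j → ∞` be integers with gaps at most
`u_j ^ α` for some `α < 1 / 2` (for instance `u_j = ⌊j ^ 1.99⌋`). If
`log (A k n) = β log n + ∑ a_i n ^ (-θ_i) + O (n ^ (-M))` along `n = u_j`, a finite expansion with any
real exponents `β`, `θ_i ≥ 0` and `M ≥ 0`, then for every `s ≥ 0` and `b < 1 / 2` the `s`-th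
difference of `log (A k n) - β log n - ∑ a_i n ^ (-θ_i)` is `O (n ^ (-M - b s))` along all `n`; for
`s = 0` this is the same expansion for all `n`, with the same error term. -/
theorem result (k : ℕ) (α : ℝ) (hα0 : 0 ≤ α) (hα : α < 1 / 2) (u : ℕ → ℕ)
    (hu : Tendsto u atTop atTop)
    (hgap : ∀ᶠ j : ℕ in atTop, (u (j + 1) : ℝ) ≤ u j + (u j : ℝ) ^ α)
    (q : ℕ) (β : ℝ) (a θ : Fin q → ℝ) (hθ : ∀ i, 0 ≤ θ i) (M : ℝ) (hM : 0 ≤ M)
    (hval : ∃ C : ℝ, ∀ᶠ j : ℕ in atTop,
      |Real.log (A k (u j)) - expansion q β a θ (u j)| ≤ C * (u j : ℝ) ^ (-M))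
    (s : ℕ) (b : ℝ) (hb0 : 0 ≤ b) (hb : b < 1 / 2) :
    ∃ C : ℝ, ∀ᶠ n : ℕ in atTop,
      |∑ i ∈ range (s + 1), (-1 : ℝ) ^ i * (s.choose i : ℝ) *
        (Real.log (A k (n + i)) - expansion q β a θ (n + i))| ≤
        C * (n : ℝ) ^ (-(M + b * s)) := by
  have hreg : Pool.Agent.N226.SX.Reg (1 / 2) (fun n : ℕ => Real.log (A k n)) := by
    refine Pool.Agent.N226.SX.reg_of_log_one fun r hr => ?_
    obtain ⟨K, hK⟩ := Pool.Agent.Results.MP_2250b1_co.AllOrders.result k r hr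
    exact ⟨K, (eventually_ge_atTop 2).mono fun n hn => hK n hn⟩
  exact Pool.Agent.N226.SX.main_one (by norm_num) hreg
    (Pool.Agent.N226.SX.reg_G1 (1 / 2) (by norm_num) q β a θ hθ) M α hM hα0 hα u hu hgap hval
    s b hb0 hb

end Pool.Agent.Results.MP_2250b1_co.ExpansionsFromSparsePerimeters
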